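import Mathlib

set_option autoImplicit false

open Metric Set Filter Topology

namespace Pool.Agent.Lib_MP_f96441_co

variable {d : ℕ}

local instance : Fact (Module.finrank ℝ (EuclideanSpace ℝ (Fin d)) = d) := ⟨by simp⟩

/-- `Supp K p`: the point `p` of `K` lies on a supporting hyperplane of `K`. -/
def Supp (K : Set (EuclideanSpace ℝ (Fin d))) (p : EuclideanSpace ℝ (Fin d)) : Prop :=
  p ∈ K ∧ ∃ u : EuclideanSpace ℝ (Fin d), ‖u‖ = 1 ∧ ∀ y ∈ K, inner ℝ u y ≤ inner ℝ u p

lemma not_supp_of_interior {K : Set (EuclideanSpace ℝ (Fin d))} {p : EuclideanSpace ℝ (Fin d)}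
    (hp : p ∈ interior K) : ¬ Supp K p := by
  rintro ⟨-, u, hu, h⟩
  rw [mem_interior_iff_mem_nhds, Metric.mem_nhds_iff] at hp
  obtain ⟨r, hr, hb⟩ := hp
  have h1 : p + (r / 2) • u ∈ K := by
    apply hb
    rw [Metric.mem_ball, dist_eq_norm]
    have : p + (r / 2) • u - p = (r / 2) • u := by abel
    rw [this, norm_smul, hu, mul_one, Real.norm_eq_abs, abs_of_pos (by linarith)]
    linarith
  have h2 := h _ h1
  rw [inner_add_right, inner_smul_right, real_inner_self_eq_norm_sq, hu] at h2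
  norm_num at h2
  linarith

/-- nearest point projection onto a convex body -/
lemma exists_proj (K : ConvexBody (EuclideanSpace ℝ (Fin d))) (x : EuclideanSpace ℝ (Fin d)) :
    ∃ p ∈ (K : Set (EuclideanSpace ℝ (Fin d))),
      infDist x (K : Set (EuclideanSpace ℝ (Fin d))) = dist x p ∧
      ∀ y ∈ (K : Set (EuclideanSpace ℝ (Fin d))), inner ℝ (x - p) (y - p) ≤ 0 := by
  obtain ⟨p, hp, hpe⟩ := exists_norm_eq_iInf_of_complete_convex K.nonempty
    K.isCompact.isComplete K.convex x
  refine ⟨p, hp, ?_, ?_⟩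
  · rw [Metric.infDist_eq_iInf, dist_eq_norm, hpe]
    simp only [dist_eq_norm]
  · exact (norm_eq_iInf_iff_real_inner_le_zero K.convex hp).1 hpe

/-- The supporting property is preserved under limits. -/
lemma supp_of_tendsto {Ks : ℕ → ConvexBody (EuclideanSpace ℝ (Fin d))}
    {K : ConvexBody (EuclideanSpace ℝ (Fin d))} {p : ℕ → EuclideanSpace ℝ (Fin d)}
    {q : EuclideanSpace ℝ (Fin d)}
    (hK : Tendsto Ks atTop (𝓝 K)) (hp : Tendsto p atTop (𝓝 q))
    (hs : ∀ j, Supp (Ks j : Set (EuclideanSpace ℝ (Fin d))) (p j)) :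
    Supp (K : Set (EuclideanSpace ℝ (Fin d))) q := by
  have hd : Tendsto (fun j => dist (Ks j) K) atTop (𝓝 0) := by
    have := (tendsto_iff_dist_tendsto_zero (f := Ks) (x := atTop) (a := K)).1 hK
    exact this
  choose hpm u hu hsup using hs
  constructor
  · -- q ∈ K
    have h0 : infDist q (K : Set (EuclideanSpace ℝ (Fin d))) = 0 := by
      apply le_antisymm _ infDist_nonneg
      have h1 : Tendsto (fun j => dist q (p j) + dist (Ks j) K) atTop (𝓝 (0 + 0)) := by
        refine Tendsto.add ?_ hd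
        have h3 := (tendsto_iff_dist_tendsto_zero (f := p) (x := atTop) (a := q)).1 hp
        simpa [dist_comm] using h3
      rw [add_zero] at h1
      apply ge_of_tendsto' h1
      intro j
      calc infDist q (K : Set (EuclideanSpace ℝ (Fin d)))
          ≤ infDist (p j) (K : Set (EuclideanSpace ℝ (Fin d))) + dist q (p j) :=
            infDist_le_infDist_add_dist
        _ ≤ dist (Ks j) K + dist q (p j) := by
            gcongr
            exact infDist_le_hausdorffDist_of_mem (hpm j) ConvexBody.hausdorffEDist_ne_top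
        _ = _ := by ring
    exact (K.isClosed.mem_iff_infDist_zero K.nonempty).2 h0
  · -- compactness of the sphere
    obtain ⟨v, hv, φ, hφ, hlim⟩ := (isCompact_sphere (0 : EuclideanSpace ℝ (Fin d)) 1).tendsto_subseq
      (x := u) (fun j => by simp [hu j])
    refine ⟨v, by simpa using hv, ?_⟩
    intro y hy
    -- choose y_j in K_j
    have hy' : ∀ j, ∃ z ∈ (Ks j : Set (EuclideanSpace ℝ (Fin d))),
        dist y z ≤ dist (Ks j) K + 1 / ((j : ℝ) + 1) := by
      intro j
      have hlt : hausdorffDist (Ks j : Set (EuclideanSpace ℝ (Fin d))) K <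
          dist (Ks j) K + 1 / ((j : ℝ) + 1) := by
        rw [ConvexBody.hausdorffDist_coe]
        have : (0 : ℝ) < 1 / ((j : ℝ) + 1) := by positivity
        linarith
      obtain ⟨z, hz, hz'⟩ := exists_dist_lt_of_hausdorffDist_lt' hy hlt
        ConvexBody.hausdorffEDist_ne_top
      refine ⟨z, hz, ?_⟩
      rw [dist_comm]
      exact hz'.le
    choose z hz hzd using hy'
    have hzt : Tendsto z atTop (𝓝 y) := by
      rw [tendsto_iff_dist_tendsto_zero]
      have h1 : Tendsto (fun j : ℕ => dist (Ks j) K + 1 / ((j : ℝ) + 1)) atTop (𝓝 (0 + 0)) :=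
        hd.add tendsto_one_div_add_atTop_nhds_zero_nat
      rw [add_zero] at h1
      refine squeeze_zero (fun _ => dist_nonneg) (fun j => ?_) h1
      rw [dist_comm]
      exact hzd j
    have hl : Tendsto (fun j => inner ℝ (u (φ j)) (z (φ j))) atTop (𝓝 (inner ℝ v y)) :=
      hlim.inner (hzt.comp hφ.tendsto_atTop)
    have hr : Tendsto (fun j => inner ℝ (u (φ j)) (p (φ j))) atTop (𝓝 (inner ℝ v q)) :=
      hlim.inner (hp.comp hφ.tendsto_atTop)
    exact le_of_tendsto_of_tendsto' hl hr (fun j => hsup (φ j) _ (hz (φ j)))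

/-- Frontier points of a convex body are supporting points. -/
lemma supp_of_frontier {K : ConvexBody (EuclideanSpace ℝ (Fin d))} {p : EuclideanSpace ℝ (Fin d)}
    (hp : p ∈ frontier (K : Set (EuclideanSpace ℝ (Fin d)))) :
    Supp (K : Set (EuclideanSpace ℝ (Fin d))) p := by
  have hpK : p ∈ (K : Set (EuclideanSpace ℝ (Fin d))) := by
    have := frontier_subset_closure hp
    rwa [K.isClosed.closure_eq] at this
  have hpi : p ∉ interior (K : Set (EuclideanSpace ℝ (Fin d))) := by
    intro h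
    rw [frontier, Set.mem_sdiff] at hp
    exact hp.2 h
  have hx : ∀ j : ℕ, ∃ x : EuclideanSpace ℝ (Fin d), dist x p < 1 / ((j : ℝ) + 1) ∧
      x ∉ (K : Set (EuclideanSpace ℝ (Fin d))) := by
    intro j
    by_contra hcon
    push Not at hcon
    apply hpi
    rw [mem_interior_iff_mem_nhds, Metric.mem_nhds_iff]
    exact ⟨1 / ((j : ℝ) + 1), by positivity, fun x hx => hcon x hx⟩
  choose x hxd hxK using hx
  choose q hqK hqd hqin using fun j => exists_proj K (x j)
  have hqs : ∀ j, Supp (K : Set (EuclideanSpace ℝ (Fin d))) (q j) := by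
    intro j
    have hne : x j - q j ≠ 0 := by
      intro h
      rw [sub_eq_zero] at h
      exact hxK j (h ▸ hqK j)
    have hnorm : 0 < ‖x j - q j‖ := norm_pos_iff.2 hne
    refine ⟨hqK j, (‖x j - q j‖)⁻¹ • (x j - q j), ?_, ?_⟩
    · rw [norm_smul, norm_inv, norm_norm, inv_mul_cancel₀ hnorm.ne']
    · intro y hy
      have h := hqin j y hy
      rw [inner_sub_right] at h
      rw [real_inner_smul_left, real_inner_smul_left]
      apply mul_le_mul_of_nonneg_left _ (by positivity)
      linarith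
  have hqt : Tendsto q atTop (𝓝 p) := by
    rw [tendsto_iff_dist_tendsto_zero]
    have h1 : Tendsto (fun j : ℕ => 2 * (1 / ((j : ℝ) + 1))) atTop (𝓝 (2 * 0)) :=
      tendsto_one_div_add_atTop_nhds_zero_nat.const_mul 2
    rw [mul_zero] at h1
    refine squeeze_zero (fun _ => dist_nonneg) (fun j => ?_) h1
    have h2 : dist (x j) (q j) ≤ dist (x j) p := by
      rw [← hqd j]
      exact infDist_le_dist_of_mem hpK
    calc dist (q j) p ≤ dist (q j) (x j) + dist (x j) p := dist_triangle _ _ _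
      _ = dist (x j) (q j) + dist (x j) p := by rw [dist_comm (q j)]
      _ ≤ 2 * (1 / ((j : ℝ) + 1)) := by linarith [hxd j]
  exact supp_of_tendsto (Ks := fun _ => K) tendsto_const_nhds hqt hqs

/-- The set of convex bodies carrying a configuration of supporting points from a closed set
of configurations is closed. -/
lemma isClosed_config {ι : Type*} [Fintype ι] {C : Set (ι → EuclideanSpace ℝ (Fin d))}
    (hC : IsClosed C) :
    IsClosed {K : ConvexBody (EuclideanSpace ℝ (Fin d)) |
      ∃ p ∈ C, ∀ i, Supp (K : Set (EuclideanSpace ℝ (Fin d))) (p i)} := by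
  apply IsSeqClosed.isClosed
  intro Ks K hKs hK
  choose p hpC hps using hKs
  obtain ⟨R, hR⟩ := K.isBounded.subset_closedBall (0 : EuclideanSpace ℝ (Fin d))
  have hd : Tendsto (fun j => dist (Ks j) K) atTop (𝓝 0) :=
    (tendsto_iff_dist_tendsto_zero (f := Ks) (x := atTop) (a := K)).1 hK
  obtain ⟨M, hM⟩ := hd.bddAbove_range
  have hM' : ∀ j, dist (Ks j) K ≤ M := fun j => hM ⟨j, rfl⟩
  have hR0 : 0 ≤ R := by
    obtain ⟨y, hy⟩ := K.nonempty
    have := hR hy
    rw [mem_closedBall_zero_iff] at this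
    exact (norm_nonneg _).trans this
  have hM0 : 0 ≤ M := dist_nonneg.trans (hM' 0)
  have hbound : ∀ j i, ‖p j i‖ ≤ R + M + 1 := by
    intro j i
    have h1 : hausdorffDist (Ks j : Set (EuclideanSpace ℝ (Fin d))) K < M + 1 := by
      rw [ConvexBody.hausdorffDist_coe]
      linarith [hM' j]
    obtain ⟨z, hz, hz'⟩ := exists_dist_lt_of_hausdorffDist_lt (hps j i).1 h1
      ConvexBody.hausdorffEDist_ne_top
    have h2 : ‖z‖ ≤ R := by
      have := hR hz
      rwa [mem_closedBall_zero_iff] at this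
    have h3 : ‖p j i - z‖ < M + 1 := by rwa [← dist_eq_norm]
    have h4 : ‖p j i‖ ≤ ‖p j i - z‖ + ‖z‖ := by
      simpa using norm_add_le (p j i - z) z
    linarith
  have hcomp : IsCompact (closedBall (0 : ι → EuclideanSpace ℝ (Fin d)) (R + M + 1)) :=
    isCompact_closedBall _ _
  obtain ⟨q, hq, φ, hφ, hlim⟩ := hcomp.tendsto_subseq (x := p) (fun j => by
    rw [mem_closedBall_zero_iff, pi_norm_le_iff_of_nonneg (by linarith)]
    exact hbound j)
  refine ⟨q, hC.mem_of_tendsto hlim (Eventually.of_forall fun j => hpC (φ j)), fun i => ?_⟩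
  have hlimi : Tendsto (fun j => p (φ j) i) atTop (𝓝 (q i)) :=
    (tendsto_pi_nhds.1 hlim) i
  exact supp_of_tendsto (hK.comp hφ.tendsto_atTop) hlimi (fun j => hps (φ j) i)

lemma convexOn_infDist (K : ConvexBody (EuclideanSpace ℝ (Fin d))) :
    ConvexOn ℝ univ (fun x => infDist x (K : Set (EuclideanSpace ℝ (Fin d)))) := by
  refine ⟨convex_univ, ?_⟩
  intro x _ y _ a b ha hb hab
  obtain ⟨p, hp, hpd, -⟩ := exists_proj K x
  obtain ⟨q, hq, hqd, -⟩ := exists_proj K y
  have hmem : a • p + b • q ∈ (K : Set (EuclideanSpace ℝ (Fin d))) := K.convex hp hq ha hb hab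
  simp only [smul_eq_mul]
  rw [hpd, hqd]
  calc infDist (a • x + b • y) (K : Set (EuclideanSpace ℝ (Fin d)))
      ≤ dist (a • x + b • y) (a • p + b • q) := infDist_le_dist_of_mem hmem
    _ ≤ dist (a • x) (a • p) + dist (b • y) (b • q) := dist_add_add_le _ _ _ _
    _ = a * dist x p + b * dist y q := by
        rw [dist_smul₀, dist_smul₀, Real.norm_eq_abs, Real.norm_eq_abs, abs_of_nonneg ha,
          abs_of_nonneg hb]

/-- Strictly convex approximation. -/
lemma exists_strict (K₀ : ConvexBody (EuclideanSpace ℝ (Fin d))) {ε : ℝ} (hε : 0 < ε) :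
    ∃ K₁ : ConvexBody (EuclideanSpace ℝ (Fin d)), dist K₁ K₀ < ε ∧
      ∀ x ∈ (K₁ : Set (EuclideanSpace ℝ (Fin d))), ∀ y ∈ (K₁ : Set (EuclideanSpace ℝ (Fin d))),
        x ≠ y → ((1 / 2 : ℝ) • x + (1 / 2 : ℝ) • y) ∈
          interior (K₁ : Set (EuclideanSpace ℝ (Fin d))) := by
  obtain ⟨R, hR⟩ := K₀.isBounded.subset_closedBall (0 : EuclideanSpace ℝ (Fin d))
  set τ : ℝ := ε / 2 with hτ
  have hτ0 : 0 < τ := by positivity
  set δ : ℝ := τ / (R ^ 2 + 1) with hδ
  have hδ0 : 0 < δ := by positivity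
  set f : EuclideanSpace ℝ (Fin d) → ℝ :=
    fun x => infDist x (K₀ : Set (EuclideanSpace ℝ (Fin d))) + δ * ‖x‖ ^ 2 with hf
  have hfc : Continuous f := by
    apply Continuous.add (continuous_infDist_pt _)
    fun_prop
  have hsq : ConvexOn ℝ univ (fun x : EuclideanSpace ℝ (Fin d) => δ * ‖x‖ ^ 2) := by
    have h1 : ConvexOn ℝ univ (fun x : EuclideanSpace ℝ (Fin d) => ‖x‖ ^ 2) :=
      (convexOn_norm convex_univ).pow (fun _ _ => norm_nonneg _) 2
    simpa [smul_eq_mul] using h1.smul hδ0.le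
  have hconv : ConvexOn ℝ univ f := (convexOn_infDist K₀).add hsq
  have hsub : (K₀ : Set (EuclideanSpace ℝ (Fin d))) ⊆ {x | f x ≤ τ} := by
    intro x hx
    have h0 : infDist x (K₀ : Set (EuclideanSpace ℝ (Fin d))) = 0 := infDist_zero_of_mem hx
    have h1 : ‖x‖ ≤ R := by
      have := hR hx
      rwa [mem_closedBall_zero_iff] at this
    have h2 : ‖x‖ ^ 2 ≤ R ^ 2 := by
      exact pow_le_pow_left₀ (norm_nonneg _) h1 2
    simp only [Set.mem_ofPred_eq, hf, h0, zero_add]
    calc δ * ‖x‖ ^ 2 ≤ δ * (R ^ 2 + 1) := by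
          apply mul_le_mul_of_nonneg_left _ hδ0.le
          linarith
      _ = τ := by
          rw [hδ]
          field_simp
  have hbd : {x | f x ≤ τ} ⊆ closedBall (0 : EuclideanSpace ℝ (Fin d)) (τ / δ + 1) := by
    intro x hx
    simp only [Set.mem_ofPred_eq, hf] at hx
    have h0 : 0 ≤ infDist x (K₀ : Set (EuclideanSpace ℝ (Fin d))) := infDist_nonneg
    have h1 : δ * ‖x‖ ^ 2 ≤ τ := by linarith
    have h2 : ‖x‖ ^ 2 ≤ τ / δ := by
      rw [le_div_iff₀ hδ0]
      linarith
    rw [mem_closedBall_zero_iff]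
    nlinarith [norm_nonneg x, sq_nonneg (‖x‖ - 1)]
  have hclosed : IsClosed {x | f x ≤ τ} := isClosed_le hfc continuous_const
  have hcomp : IsCompact {x | f x ≤ τ} :=
    (isCompact_closedBall _ _).of_isClosed_subset hclosed hbd
  refine ⟨⟨{x | f x ≤ τ}, by simpa using hconv.convex_le τ, hcomp, K₀.nonempty.mono hsub⟩, ?_, ?_⟩
  · rw [← ConvexBody.hausdorffDist_coe]
    apply lt_of_le_of_lt (b := τ) _ (by rw [hτ]; linarith)
    apply hausdorffDist_le_of_infDist hτ0.le
    · intro x hx
      simp only [ConvexBody.coe_mk, Set.mem_ofPred_eq, hf] at hx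
      have : 0 ≤ δ * ‖x‖ ^ 2 := by positivity
      linarith
    · intro x hx
      have : x ∈ {x | f x ≤ τ} := hsub hx
      simp only [ConvexBody.coe_mk]
      rw [infDist_zero_of_mem this]
      exact hτ0.le
  · intro x hx y hy hxy
    simp only [ConvexBody.coe_mk] at hx hy ⊢
    have hopen : IsOpen {x | f x < τ} := isOpen_lt hfc continuous_const
    have hss : {x | f x < τ} ⊆ {x | f x ≤ τ} := by
      intro z hz
      rw [Set.mem_ofPred_eq] at hz ⊢
      exact hz.le
    apply interior_maximal hss hopen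
    simp only [Set.mem_ofPred_eq] at hx hy ⊢
    have h1 := (convexOn_infDist K₀).2 (mem_univ x) (mem_univ y)
      (by norm_num : (0 : ℝ) ≤ 1 / 2) (by norm_num : (0 : ℝ) ≤ 1 / 2) (by norm_num)
    simp only [smul_eq_mul] at h1
    have h2 : ‖(1 / 2 : ℝ) • x + (1 / 2 : ℝ) • y‖ ^ 2 =
        (‖x‖ ^ 2 + ‖y‖ ^ 2) / 2 - ‖x - y‖ ^ 2 / 4 := by
      rw [norm_add_sq_real, norm_sub_sq_real, norm_smul, norm_smul, real_inner_smul_left,
        real_inner_smul_right]
      norm_num
      ring
    have h3 : 0 < ‖x - y‖ := norm_pos_iff.2 (sub_ne_zero.2 hxy)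
    simp only [hf] at hx hy ⊢
    rw [h2]
    have h4 : 0 < δ * (‖x - y‖ ^ 2 / 4) := by positivity
    nlinarith

/-- Polytopal outer approximation with free right hand sides. -/
lemma exists_polytope (K₁ : ConvexBody (EuclideanSpace ℝ (Fin d))) {τ : ℝ} (hτ : 0 < τ) :
    ∃ (t : Finset (EuclideanSpace ℝ (Fin d))) (u : EuclideanSpace ℝ (Fin d) →
        EuclideanSpace ℝ (Fin d)) (l r : EuclideanSpace ℝ (Fin d) → ℝ),
      (∀ j ∈ t, u j ≠ 0) ∧ (∀ j ∈ t, l j < r j) ∧
      ∀ b : EuclideanSpace ℝ (Fin d) → ℝ, (∀ j ∈ t, b j ∈ Ioo (l j) (r j)) →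
        (K₁ : Set (EuclideanSpace ℝ (Fin d))) ⊆ {x | ∀ j ∈ t, inner ℝ (u j) x ≤ b j} ∧
        {x | ∀ j ∈ t, inner ℝ (u j) x ≤ b j} ⊆
          {x | infDist x (K₁ : Set (EuclideanSpace ℝ (Fin d))) < τ} := by
  choose p hpK hpd hpin using exists_proj K₁
  have hbdd : {x | infDist x (K₁ : Set (EuclideanSpace ℝ (Fin d))) = τ} ⊆
      cthickening τ (K₁ : Set (EuclideanSpace ℝ (Fin d))) := by
    intro x hx
    rw [Set.mem_ofPred_eq] at hx
    exact mem_cthickening_of_dist_le x (p x) τ _ (hpK x) (by rw [← hpd, hx])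
  have hcl : IsClosed {x | infDist x (K₁ : Set (EuclideanSpace ℝ (Fin d))) = τ} :=
    isClosed_eq (continuous_infDist_pt _) continuous_const
  have hcomp : IsCompact {x | infDist x (K₁ : Set (EuclideanSpace ℝ (Fin d))) = τ} :=
    (K₁.isCompact.cthickening).of_isClosed_subset hcl hbdd
  set V : EuclideanSpace ℝ (Fin d) → Set (EuclideanSpace ℝ (Fin d)) := fun x =>
    {z | inner ℝ (x - p x) (p x) + τ ^ 2 / 2 < inner ℝ (x - p x) z} with hV
  have hVopen : ∀ x, IsOpen (V x) := by
    intro x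
    apply isOpen_lt continuous_const
    fun_prop
  have hVmem : ∀ x ∈ {x | infDist x (K₁ : Set (EuclideanSpace ℝ (Fin d))) = τ}, V x ∈ 𝓝 x := by
    intro x hx
    apply (hVopen x).mem_nhds
    rw [Set.mem_ofPred_eq] at hx
    rw [hV]
    simp only [Set.mem_ofPred_eq]
    have h1 : ‖x - p x‖ = τ := by rw [← dist_eq_norm, ← hpd, hx]
    have h2 : inner ℝ (x - p x) x = inner ℝ (x - p x) (p x) + τ ^ 2 := by
      have h3 : inner ℝ (x - p x) (x - p x) = τ ^ 2 := by
        rw [real_inner_self_eq_norm_sq, h1]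
      rw [inner_sub_right] at h3
      linarith
    rw [h2]
    nlinarith
  obtain ⟨t, htS, htc⟩ := hcomp.elim_nhds_subcover V hVmem
  refine ⟨t, fun x => x - p x, fun x => inner ℝ (x - p x) (p x),
    fun x => inner ℝ (x - p x) (p x) + τ ^ 2 / 2, ?_, ?_, ?_⟩
  · intro j hj
    have hjS := htS j hj
    rw [Set.mem_ofPred_eq] at hjS
    have h1 : ‖j - p j‖ = τ := by rw [← dist_eq_norm, ← hpd, hjS]
    intro h
    simp only at h
    rw [h, norm_zero] at h1
    linarith
  · intro j _
    have : 0 < τ ^ 2 / 2 := by positivity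
    linarith
  · intro b hb
    have hK : (K₁ : Set (EuclideanSpace ℝ (Fin d))) ⊆
        {x | ∀ j ∈ t, inner ℝ (j - p j) x ≤ b j} := by
      intro y hy
      rw [Set.mem_ofPred_eq]
      intro j hj
      have h1 := hpin j y hy
      rw [inner_sub_right] at h1
      have h2 := (hb j hj).1
      linarith
    refine ⟨hK, ?_⟩
    intro z hz
    by_contra hcon
    rw [Set.mem_ofPred_eq, not_lt] at hcon
    have hPconv : Convex ℝ {x | ∀ j ∈ t, inner ℝ (j - p j) x ≤ b j} := by
      intro x hx y hy a c ha hc hac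
      rw [Set.mem_ofPred_eq] at hx hy ⊢
      intro j hj
      rw [inner_add_right, real_inner_smul_right, real_inner_smul_right]
      calc a * inner ℝ (j - p j) x + c * inner ℝ (j - p j) y ≤ a * b j + c * b j :=
            add_le_add (mul_le_mul_of_nonneg_left (hx j hj) ha)
              (mul_le_mul_of_nonneg_left (hy j hj) hc)
        _ = b j := by rw [← add_mul, hac, one_mul]
    obtain ⟨y, hy⟩ := K₁.nonempty
    obtain ⟨w, hw, hwt⟩ := hPconv.isPreconnected.intermediate_value (hK hy) hz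
      (f := fun x => infDist x (K₁ : Set (EuclideanSpace ℝ (Fin d))))
      (continuous_infDist_pt _).continuousOn
      (show τ ∈ Icc (infDist y (K₁ : Set (EuclideanSpace ℝ (Fin d))))
        (infDist z (K₁ : Set (EuclideanSpace ℝ (Fin d)))) from
        ⟨by rw [infDist_zero_of_mem hy]; exact hτ.le, hcon⟩)
    have hwS : w ∈ {x | infDist x (K₁ : Set (EuclideanSpace ℝ (Fin d))) = τ} := hwt
    have hwc := htc hwS
    simp only [mem_iUnion] at hwc
    obtain ⟨j, hj, hwj⟩ := hwc
    rw [hV] at hwj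
    simp only [Set.mem_ofPred_eq] at hwj
    rw [Set.mem_ofPred_eq] at hw
    have h1 := hw j hj
    have h2 := (hb j hj).2
    simp only at h2
    linarith

/-- The linear map sending a (possibly degenerate) parallelotope to the values of the
functionals `u (j s)` at its vertices. -/
noncomputable def vertexMap {ι : Type*} (u : ι → EuclideanSpace ℝ (Fin d))
    (j : Finset (Fin d) → ι) :
    (EuclideanSpace ℝ (Fin d) × (Fin d → EuclideanSpace ℝ (Fin d))) →ₗ[ℝ]
      (Finset (Fin d) → ℝ) where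
  toFun q s := inner ℝ (u (j s)) (q.1 + ∑ i ∈ s, q.2 i)
  map_add' q q' := by
    ext s
    simp only [Prod.fst_add, Prod.snd_add, Pi.add_apply, Finset.sum_add_distrib]
    rw [← inner_add_right]
    congr 1
    abel
  map_smul' c q := by
    ext s
    simp only [Prod.smul_fst, Prod.smul_snd, Pi.smul_apply, RingHom.id_apply, smul_eq_mul]
    rw [← Finset.smul_sum, ← smul_add, real_inner_smul_right]

/-- Generic right hand sides. -/
lemma exists_generic {ι : Type*} [Fintype ι] (hd : d + d * d < 2 ^ d)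
    (u : ι → EuclideanSpace ℝ (Fin d)) (l r : ι → ℝ) (hlr : ∀ j, l j < r j) :
    ∃ b : ι → ℝ, (∀ j, b j ∈ Ioo (l j) (r j)) ∧
      ∀ j : Finset (Fin d) → ι, Function.Injective j →
        ∀ (x : EuclideanSpace ℝ (Fin d)) (v : Fin d → EuclideanSpace ℝ (Fin d)),
          ¬ ∀ s, inner ℝ (u (j s)) (x + ∑ i ∈ s, v i) = b (j s) := by
  classical
  set M : {j : Finset (Fin d) → ι // Function.Injective j} → Submodule ℝ (ι → ℝ) := fun j =>
    (LinearMap.range (vertexMap u j.1)).comap (LinearMap.funLeft ℝ ℝ j.1) with hM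
  have hMtop : ∀ j, M j ≠ ⊤ := by
    intro j htop
    have hsurj : Function.Surjective (LinearMap.funLeft ℝ ℝ j.1) :=
      LinearMap.funLeft_surjective_of_injective ℝ ℝ j.1 j.2
    have hr : LinearMap.range (vertexMap u j.1) = ⊤ := by
      rw [eq_top_iff]
      intro y _
      obtain ⟨z, rfl⟩ := hsurj y
      have : z ∈ M j := by rw [htop]; trivial
      exact this
    have h1 := LinearMap.finrank_range_le (vertexMap u j.1)
    rw [hr, finrank_top] at h1
    simp only [Module.finrank_fintype_fun_eq_card, Fintype.card_finset, Fintype.card_fin,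
      Module.finrank_prod, finrank_euclideanSpace, Module.finrank_pi_fintype, Finset.sum_const,
      Finset.card_univ, smul_eq_mul] at h1
    omega
  have hnull : MeasureTheory.volume (⋃ j, (M j : Set (ι → ℝ))) = 0 := by
    rw [MeasureTheory.measure_iUnion_null_iff]
    intro j
    exact MeasureTheory.Measure.addHaar_submodule _ _ (hMtop j)
  set U : Set (ι → ℝ) := Set.pi univ (fun j => Ioo (l j) (r j)) with hU
  have hUo : IsOpen U := isOpen_set_pi finite_univ (fun _ _ => isOpen_Ioo)
  have hUne : U.Nonempty := by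
    refine ⟨fun j => (l j + r j) / 2, ?_⟩
    rw [hU, mem_univ_pi]
    intro j
    have := hlr j
    constructor <;> linarith
  have hUpos : 0 < MeasureTheory.volume U := hUo.measure_pos _ hUne
  have hnot : ¬ U ⊆ ⋃ j, (M j : Set (ι → ℝ)) := by
    intro hsub
    have := MeasureTheory.measure_mono (μ := MeasureTheory.volume) hsub
    rw [hnull] at this
    exact absurd this (not_le.2 hUpos)
  obtain ⟨b, hbU, hbM⟩ := Set.not_subset.1 hnot
  refine ⟨b, ?_, ?_⟩
  · rw [hU, mem_univ_pi] at hbU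
    exact hbU
  · intro j hj x v hall
    apply hbM
    rw [mem_iUnion]
    refine ⟨⟨j, hj⟩, ?_⟩
    show LinearMap.funLeft ℝ ℝ j b ∈ LinearMap.range (vertexMap u j)
    refine ⟨(x, v), ?_⟩
    ext s
    rw [LinearMap.funLeft_apply]
    exact hall s

lemma supp_of_facet {P : Set (EuclideanSpace ℝ (Fin d))} {x u : EuclideanSpace ℝ (Fin d)} {b : ℝ}
    (hx : x ∈ P) (hu : u ≠ 0) (hxb : inner ℝ u x = b) (hP : ∀ y ∈ P, inner ℝ u y ≤ b) :
    Supp P x := by
  have hn : 0 < ‖u‖ := norm_pos_iff.2 hu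
  refine ⟨hx, (‖u‖)⁻¹ • u, ?_, ?_⟩
  · rw [norm_smul, norm_inv, norm_norm, inv_mul_cancel₀ hn.ne']
  · intro y hy
    rw [real_inner_smul_left, real_inner_smul_left, hxb]
    exact mul_le_mul_of_nonneg_left (hP y hy) (by positivity)

/-- Configurations of vertices of (possibly degenerate) parallelotopes with pairwise distances at
least `δ`. -/
def Cfg (d : ℕ) (δ : ℝ) : Set (Finset (Fin d) → EuclideanSpace ℝ (Fin d)) :=
  {p | (∃ (x : EuclideanSpace ℝ (Fin d)) (v : Fin d → EuclideanSpace ℝ (Fin d)),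
      ∀ s, p s = x + ∑ i ∈ s, v i) ∧ ∀ s t, s ≠ t → δ ≤ dist (p s) (p t)}

/-- Segments of length at least `δ` together with their midpoint. -/
def Seg (d : ℕ) (δ : ℝ) : Set (Fin 3 → EuclideanSpace ℝ (Fin d)) :=
  {p | p 2 = (1 / 2 : ℝ) • p 0 + (1 / 2 : ℝ) • p 1 ∧ δ ≤ dist (p 0) (p 1)}

lemma isClosed_Seg (δ : ℝ) : IsClosed (Seg d δ) := by
  apply IsClosed.and
  · exact isClosed_eq (by fun_prop) (by fun_prop)
  · exact isClosed_le (by fun_prop) (by fun_prop)

/-- The linear map from parameters to vertex configurations. -/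
noncomputable def cfgMap (d : ℕ) :
    (EuclideanSpace ℝ (Fin d) × (Fin d → EuclideanSpace ℝ (Fin d))) →ₗ[ℝ]
      (Finset (Fin d) → EuclideanSpace ℝ (Fin d)) where
  toFun q s := q.1 + ∑ i ∈ s, q.2 i
  map_add' q q' := by
    ext1 s
    simp only [Prod.fst_add, Prod.snd_add, Pi.add_apply, Finset.sum_add_distrib]
    abel
  map_smul' c q := by
    ext1 s
    simp only [Prod.smul_fst, Prod.smul_snd, Pi.smul_apply, RingHom.id_apply]
    rw [← Finset.smul_sum, ← smul_add]

lemma isClosed_Cfg (δ : ℝ) : IsClosed (Cfg d δ) := by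
  apply IsClosed.and
  · have h : IsClosed ((LinearMap.range (cfgMap d) : Submodule ℝ _) :
        Set (Finset (Fin d) → EuclideanSpace ℝ (Fin d))) :=
      Submodule.closed_of_finiteDimensional _
    convert h using 1
    ext p
    simp only [SetLike.mem_coe, LinearMap.mem_range, Prod.exists]
    constructor
    · rintro ⟨x, v, hxv⟩
      exact ⟨x, v, by ext1 s; exact (hxv s).symm⟩
    · rintro ⟨x, v, hxv⟩
      exact ⟨x, v, fun s => by rw [← hxv]; rfl⟩
  · rw [show {p : Finset (Fin d) → EuclideanSpace ℝ (Fin d) |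
        ∀ s t, s ≠ t → δ ≤ dist (p s) (p t)} =
        ⋂ s, ⋂ t, ⋂ (_ : s ≠ t), {p | δ ≤ dist (p s) (p t)} by
      ext p; simp]
    refine isClosed_iInter fun s => isClosed_iInter fun t => isClosed_iInter fun _ => ?_
    exact isClosed_le (by fun_prop) (by fun_prop)

/-- bodies with an inscribed (in the sense of supporting points) parallelotope whose vertices are
pairwise at distance at least `δ`. -/
def Bad (d : ℕ) (δ : ℝ) : Set (ConvexBody (EuclideanSpace ℝ (Fin d))) :=
  {K | ∃ p ∈ Cfg d δ, ∀ s, Supp (K : Set (EuclideanSpace ℝ (Fin d))) (p s)}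

def SegBad (d : ℕ) (δ : ℝ) : Set (ConvexBody (EuclideanSpace ℝ (Fin d))) :=
  {K | ∃ p ∈ Seg d δ, ∀ s, Supp (K : Set (EuclideanSpace ℝ (Fin d))) (p s)}

lemma isClosed_Bad (δ : ℝ) : IsClosed (Bad d δ) := isClosed_config (isClosed_Cfg δ)

lemma isClosed_SegBad (δ : ℝ) : IsClosed (SegBad d δ) := isClosed_config (isClosed_Seg δ)

lemma exists_good (hd : d + d * d < 2 ^ d) (K₀ : ConvexBody (EuclideanSpace ℝ (Fin d)))
    {ε δ : ℝ} (hε : 0 < ε) (hδ : 0 < δ) :
    ∃ K' : ConvexBody (EuclideanSpace ℝ (Fin d)), dist K' K₀ < ε ∧ K' ∉ Bad d δ := by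
  classical
  obtain ⟨K₁, hK₁, hstrict⟩ := exists_strict K₀ (half_pos hε)
  have hK₁s : K₁ ∉ SegBad d δ := by
    rintro ⟨p, ⟨hp2, hpd⟩, hps⟩
    have hne : p 0 ≠ p 1 := by
      intro h
      rw [h, dist_self] at hpd
      linarith
    have := hstrict (p 0) (hps 0).1 (p 1) (hps 1).1 hne
    rw [← hp2] at this
    exact not_supp_of_interior this (hps 2)
  obtain ⟨ρ, hρ, hball⟩ := Metric.isOpen_iff.1 (isClosed_SegBad (d := d) δ).isOpen_compl K₁ hK₁s
  set τ : ℝ := min ρ (ε / 2) / 2 with hτ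
  have hτ0 : 0 < τ := by
    have : 0 < min ρ (ε / 2) := lt_min hρ (by linarith)
    linarith
  have hτρ : τ < ρ := by
    have h1 : min ρ (ε / 2) ≤ ρ := min_le_left _ _
    have : 0 < min ρ (ε / 2) := lt_min hρ (by linarith)
    linarith
  have hτε : τ < ε / 2 := by
    have h1 : min ρ (ε / 2) ≤ ε / 2 := min_le_right _ _
    have : 0 < min ρ (ε / 2) := lt_min hρ (by linarith)
    linarith
  obtain ⟨t, u, l, r, hu, hlr, hP⟩ := exists_polytope K₁ hτ0
  obtain ⟨b, hb, hbgen⟩ := exists_generic (ι := t) hd (fun j => u j) (fun j => l j)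
    (fun j => r j) (fun j => hlr j j.2)
  set b' : EuclideanSpace ℝ (Fin d) → ℝ := fun j => if h : j ∈ t then b ⟨j, h⟩ else 0 with hb'
  have hb'val : ∀ j (h : j ∈ t), b' j = b ⟨j, h⟩ := by
    intro j h
    rw [hb']
    simp [h]
  obtain ⟨hKP, hPK⟩ := hP b' (fun j hj => by rw [hb'val j hj]; exact hb ⟨j, hj⟩)
  set P : Set (EuclideanSpace ℝ (Fin d)) := {x | ∀ j ∈ t, inner ℝ (u j) x ≤ b' j} with hPdef
  have hmemP : ∀ x, x ∈ P ↔ ∀ j ∈ t, inner ℝ (u j) x ≤ b' j := fun x => Iff.rfl
  have hPconv : Convex ℝ P := by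
    intro x hx y hy a c ha hc hac
    rw [hmemP] at hx hy ⊢
    intro j hj
    rw [inner_add_right, real_inner_smul_right, real_inner_smul_right]
    calc a * inner ℝ (u j) x + c * inner ℝ (u j) y ≤ a * b' j + c * b' j :=
          add_le_add (mul_le_mul_of_nonneg_left (hx j hj) ha)
            (mul_le_mul_of_nonneg_left (hy j hj) hc)
      _ = b' j := by rw [← add_mul, hac, one_mul]
  have hPclosed : IsClosed P := by
    have : P = ⋂ j ∈ t, {x | inner ℝ (u j) x ≤ b' j} := by
      ext x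
      simp [hmemP]
    rw [this]
    refine isClosed_biInter fun j _ => ?_
    exact isClosed_le (by fun_prop) continuous_const
  have hPsub : P ⊆ cthickening τ (K₁ : Set (EuclideanSpace ℝ (Fin d))) := by
    intro x hx
    have h1 := hPK hx
    rw [Set.mem_ofPred_eq] at h1
    obtain ⟨q, hq, hqd, -⟩ := exists_proj K₁ x
    exact mem_cthickening_of_dist_le x q τ _ hq (by rw [← hqd]; exact h1.le)
  have hPcomp : IsCompact P := K₁.isCompact.cthickening.of_isClosed_subset hPclosed hPsub
  set K' : ConvexBody (EuclideanSpace ℝ (Fin d)) := ⟨P, hPconv, hPcomp, K₁.nonempty.mono hKP⟩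
    with hK'
  have hcoe : (K' : Set (EuclideanSpace ℝ (Fin d))) = P := rfl
  have hdist : dist K' K₁ ≤ τ := by
    rw [← ConvexBody.hausdorffDist_coe, hcoe]
    apply hausdorffDist_le_of_infDist hτ0.le
    · intro x hx
      have h1 := hPK hx
      rw [Set.mem_ofPred_eq] at h1
      exact h1.le
    · intro x hx
      rw [infDist_zero_of_mem (hKP hx)]
      exact hτ0.le
  have hK's : K' ∉ SegBad d δ := by
    apply hball
    rw [mem_ball]
    linarith
  refine ⟨K', ?_, ?_⟩
  · have := dist_triangle K' K₁ K₀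
    linarith
  · rintro ⟨p, ⟨⟨x, v, hxv⟩, hpd⟩, hps⟩
    have hfacet : ∀ s, ∃ j : t, inner ℝ (u j) (p s) = b j := by
      intro s
      by_contra hcon
      push Not at hcon
      have hlt : ∀ j ∈ t, inner ℝ (u j) (p s) < b' j := by
        intro j hj
        apply lt_of_le_of_ne
        · have h1 := (hps s).1
          rw [hcoe, hmemP] at h1
          exact h1 j hj
        · rw [hb'val j hj]
          exact hcon ⟨j, hj⟩
      apply not_supp_of_interior _ (hps s)
      rw [hcoe]
      have hopen : IsOpen (⋂ j ∈ t, {x | inner ℝ (u j) x < b' j}) := by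
        apply isOpen_biInter_finset
        intro j _
        exact isOpen_lt (by fun_prop) continuous_const
      apply interior_maximal _ hopen
      · simp only [mem_iInter]
        intro j hj
        exact hlt j hj
      · intro y hy
        rw [hmemP]
        intro j hj
        simp only [mem_iInter] at hy
        exact le_of_lt (hy j hj)
    choose j hj using hfacet
    have hinj : Function.Injective j := by
      intro s s' hss
      by_contra hne
      apply hK's
      have hPle : ∀ y ∈ P, inner ℝ (u (j s)) y ≤ b (j s) := by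
        intro y hy
        rw [hmemP] at hy
        have := hy (j s) (j s).2
        rwa [hb'val _ (j s).2] at this
      have hs1 : inner ℝ (u (j s)) (p s) = b (j s) := hj s
      have hs2 : inner ℝ (u (j s)) (p s') = b (j s) := by rw [hss]; exact hj s'
      have hmem1 : p s ∈ P := (hps s).1
      have hmem2 : p s' ∈ P := (hps s').1
      refine ⟨![p s, p s', (1 / 2 : ℝ) • p s + (1 / 2 : ℝ) • p s'], ⟨?_, ?_⟩, ?_⟩
      · simp
      · simpa using hpd s s' hne
      · have hu' := hu (j s) (j s).2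
        intro i
        rw [hcoe]
        fin_cases i
        · exact supp_of_facet hmem1 hu' hs1 hPle
        · exact supp_of_facet hmem2 hu' hs2 hPle
        · have hmid : inner ℝ (u (j s)) ((1 / 2 : ℝ) • p s + (1 / 2 : ℝ) • p s') = b (j s) := by
            rw [inner_add_right, real_inner_smul_right, real_inner_smul_right, hs1, hs2]
            ring
          exact supp_of_facet (hPconv hmem1 hmem2 (by norm_num) (by norm_num) (by norm_num))
            hu' hmid hPle
    apply hbgen j hinj x v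
    intro s
    rw [← hxv s]
    exact hj s

lemma dim_lt (hd : 5 ≤ d) : d + d * d < 2 ^ d := by
  induction d, hd using Nat.le_induction with
  | base => norm_num
  | succ n hn ih =>
    rw [pow_succ]
    nlinarith

lemma dense_compl_Bad (hd : d + d * d < 2 ^ d) {δ : ℝ} (hδ : 0 < δ) : Dense (Bad d δ)ᶜ := by
  rw [Metric.dense_iff]
  intro K₀ ε hε
  obtain ⟨K', h1, h2⟩ := exists_good hd K₀ hε hδ
  exact ⟨K', h1, h2⟩

theorem main_thm (hd : 5 ≤ d) :
    {K : ConvexBody (EuclideanSpace ℝ (Fin d)) |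
        ¬ ∃ (x : EuclideanSpace ℝ (Fin d)) (v : Fin d → EuclideanSpace ℝ (Fin d)),
          LinearIndependent ℝ v ∧
          ∀ s : Finset (Fin d),
            x + ∑ i ∈ s, v i ∈ frontier (K : Set (EuclideanSpace ℝ (Fin d)))}
        ∈ residual (ConvexBody (EuclideanSpace ℝ (Fin d))) := by
  have hres : (⋂ n : ℕ, (Bad d (1 / ((n : ℝ) + 1)))ᶜ) ∈
      residual (ConvexBody (EuclideanSpace ℝ (Fin d))) := by
    rw [countable_iInter_mem]
    intro n
    exact residual_of_dense_open (isClosed_Bad _).isOpen_compl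
      (dense_compl_Bad (dim_lt hd) (by positivity))
  apply Filter.mem_of_superset hres
  intro K hK
  rw [Set.mem_ofPred_eq]
  rintro ⟨x, v, hv, hfr⟩
  have hinj : ∀ s t : Finset (Fin d), s ≠ t →
      0 < dist (x + ∑ i ∈ s, v i) (x + ∑ i ∈ t, v i) := by
    intro s t hst
    rw [dist_pos]
    intro h
    apply hst
    have h1 : ∑ i ∈ s, v i = ∑ i ∈ t, v i := add_left_cancel h
    have h2 : ∑ i, (if i ∈ s then (1 : ℝ) else 0) • v i =
        ∑ i, (if i ∈ t then (1 : ℝ) else 0) • v i := by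
      simpa [ite_smul] using h1
    have h3 := (Fintype.linearIndependent_iff.1 hv)
      (fun i => (if i ∈ s then (1 : ℝ) else 0) - (if i ∈ t then (1 : ℝ) else 0)) (by
        simp only [sub_smul, Finset.sum_sub_distrib]
        rw [h2, sub_self])
    ext i
    have h4 := h3 i
    by_cases h5 : i ∈ s <;> by_cases h6 : i ∈ t <;> simp_all
  have hev : ∀ᶠ n : ℕ in atTop, ∀ s t : Finset (Fin d), s ≠ t →
      1 / ((n : ℝ) + 1) ≤ dist (x + ∑ i ∈ s, v i) (x + ∑ i ∈ t, v i) := by
    rw [Filter.eventually_all]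
    intro s
    rw [Filter.eventually_all]
    intro t
    by_cases hst : s = t
    · simp [hst]
    · have h1 : ∀ᶠ n : ℕ in atTop, 1 / ((n : ℝ) + 1) <
          dist (x + ∑ i ∈ s, v i) (x + ∑ i ∈ t, v i) :=
        tendsto_one_div_add_atTop_nhds_zero_nat.eventually_lt_const (hinj s t hst)
      filter_upwards [h1] with n hn _
      exact hn.le
  obtain ⟨n, hn⟩ := hev.exists
  rw [mem_iInter] at hK
  apply hK n
  exact ⟨fun s => x + ∑ i ∈ s, v i, ⟨⟨x, v, fun s => rfl⟩, hn⟩, fun s => supp_of_frontier (hfr s)⟩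

end Pool.Agent.Lib_MP_f96441_co
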